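import Mathlib

/-!
Finite-horizon expected rewards of sub-stochastic chains with finitely many transition labels.
-/

namespace Pool.Agent.Lib.MP_baa74b_lc

open Finset

variable {St Z : Type} [Fintype Z]

/-- Expected reward collected in `h` steps of the chain with weights `L` and successor map `nx`. -/
noncomputable def V (nx : St → Z → St) (L : St → Z → ℝ) (r : Z → ℝ) : ℕ → St → ℝ
  | 0, _ => 0
  | h + 1, X => ∑ z, L X z * (r z + V nx L r h (nx X z))

lemma V_zero (nx : St → Z → St) (L : St → Z → ℝ) (r : Z → ℝ) (X : St) : V nx L r 0 X = 0 := rfl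

lemma V_succ (nx : St → Z → St) (L : St → Z → ℝ) (r : Z → ℝ) (h : ℕ) (X : St) :
    V nx L r (h + 1) X = ∑ z, L X z * (r z + V nx L r h (nx X z)) := rfl

lemma V_nonneg (nx : St → Z → St) {L : St → Z → ℝ} {r : Z → ℝ} (hL : ∀ X z, 0 ≤ L X z)
    (hr : ∀ z, 0 ≤ r z) (h : ℕ) (X : St) : 0 ≤ V nx L r h X := by
  induction h generalizing X with
  | zero => simp [V_zero]
  | succ h ih =>
    rw [V_succ]
    exact Finset.sum_nonneg fun z _ => mul_nonneg (hL X z) (add_nonneg (hr z) (ih _))

lemma V_le (nx : St → Z → St) {L : St → Z → ℝ} {r : Z → ℝ} (hL : ∀ X z, 0 ≤ L X z)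
    (hL1 : ∀ X, ∑ z, L X z ≤ 1) (hr1 : ∀ z, r z ≤ 1) (h : ℕ) (X : St) :
    V nx L r h X ≤ h := by
  induction h generalizing X with
  | zero => simp [V_zero]
  | succ h ih =>
    rw [V_succ]
    calc ∑ z, L X z * (r z + V nx L r h (nx X z)) ≤ ∑ z, L X z * (1 + h) :=
          Finset.sum_le_sum fun z _ =>
            mul_le_mul_of_nonneg_left (add_le_add (hr1 z) (ih _)) (hL X z)
      _ = (∑ z, L X z) * (1 + h) := by rw [Finset.sum_mul]
      _ ≤ 1 * (1 + h) := mul_le_mul_of_nonneg_right (hL1 X) (by positivity)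
      _ = ((h + 1 : ℕ) : ℝ) := by push_cast; ring

lemma V_mono_horizon (nx : St → Z → St) {L : St → Z → ℝ} {r : Z → ℝ} (hL : ∀ X z, 0 ≤ L X z)
    (hr : ∀ z, 0 ≤ r z) (h : ℕ) (X : St) : V nx L r h X ≤ V nx L r (h + 1) X := by
  induction h generalizing X with
  | zero => simpa [V_zero] using V_nonneg nx hL hr 1 X
  | succ h ih =>
    rw [V_succ nx L r (h + 1), V_succ nx L r h]
    exact Finset.sum_le_sum fun z _ =>
      mul_le_mul_of_nonneg_left (add_le_add le_rfl (ih _)) (hL X z)

/-- Sub-additivity over a family of rewards whose sum is at most `r'`. -/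
lemma sum_V_le {ι : Type} (T : Finset ι) (nx : St → Z → St) {L : St → Z → ℝ} {r : ι → Z → ℝ}
    {r' : Z → ℝ} (hL : ∀ X z, 0 ≤ L X z) (hr : ∀ z, ∑ s ∈ T, r s z ≤ r' z) (h : ℕ) (X : St) :
    ∑ s ∈ T, V nx L (r s) h X ≤ V nx L r' h X := by
  induction h generalizing X with
  | zero => simp [V_zero]
  | succ h ih =>
    simp only [V_succ]
    rw [Finset.sum_comm]
    refine Finset.sum_le_sum fun z _ => ?_
    rw [← Finset.mul_sum, Finset.sum_add_distrib]
    exact mul_le_mul_of_nonneg_left (add_le_add (hr z) (ih _)) (hL X z)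

/-- One-sided Lipschitz dependence on the weights. -/
lemma V_lipschitz (nx : St → Z → St) {L L' : St → Z → ℝ} {r : Z → ℝ} {ε : ℝ} (hε : 0 ≤ ε)
    (hL : ∀ X z, 0 ≤ L X z) (hL1 : ∀ X, ∑ z, L X z ≤ 1)
    (hL' : ∀ X z, 0 ≤ L' X z) (hL1' : ∀ X, ∑ z, L' X z ≤ 1)
    (hr : ∀ z, 0 ≤ r z) (hr1 : ∀ z, r z ≤ 1)
    (hc : ∀ X z, L X z ≤ L' X z + ε) (h : ℕ) (X : St) :
    V nx L r h X ≤ V nx L' r h X + ε * Fintype.card Z * (h : ℝ) ^ 2 := by
  induction h generalizing X with
  | zero => simp [V_zero]
  | succ h ih =>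
    rw [V_succ, V_succ]
    set δ : ℝ := ε * Fintype.card Z * (h : ℝ) ^ 2 with hδ
    have hδ0 : 0 ≤ δ := by positivity
    have h1 : ∀ z, L X z * (r z + V nx L r h (nx X z)) ≤
        L' X z * (r z + V nx L' r h (nx X z)) + L' X z * δ + ε * (1 + h) := by
      intro z
      have ha := V_nonneg nx hL hr h (nx X z)
      have hb := V_le nx hL hL1 hr1 h (nx X z)
      have hd := ih (nx X z)
      calc L X z * (r z + V nx L r h (nx X z))
          ≤ (L' X z + ε) * (r z + V nx L r h (nx X z)) :=
            mul_le_mul_of_nonneg_right (hc X z) (add_nonneg (hr z) ha)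
        _ = L' X z * (r z + V nx L r h (nx X z)) + ε * (r z + V nx L r h (nx X z)) := by ring
        _ ≤ L' X z * (r z + (V nx L' r h (nx X z) + δ)) + ε * (1 + h) :=
            add_le_add (mul_le_mul_of_nonneg_left (add_le_add le_rfl hd) (hL' X z))
              (mul_le_mul_of_nonneg_left (add_le_add (hr1 z) hb) hε)
        _ = _ := by ring
    calc ∑ z, L X z * (r z + V nx L r h (nx X z))
        ≤ ∑ z, (L' X z * (r z + V nx L' r h (nx X z)) + L' X z * δ + ε * (1 + h)) :=
          Finset.sum_le_sum fun z _ => h1 z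
      _ = ∑ z, L' X z * (r z + V nx L' r h (nx X z)) + (∑ z, L' X z) * δ
            + Fintype.card Z * (ε * (1 + h)) := by
          rw [Finset.sum_add_distrib, Finset.sum_add_distrib, ← Finset.sum_mul]
          simp
      _ ≤ ∑ z, L' X z * (r z + V nx L' r h (nx X z)) + 1 * δ
            + Fintype.card Z * (ε * (1 + h)) := by
          gcongr
          exact hL1' X
      _ ≤ _ := by
          have hN : (0 : ℝ) ≤ Fintype.card Z := by positivity
          have hh : (0 : ℝ) ≤ h := by positivity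
          have : 0 ≤ ε * Fintype.card Z * h := by positivity
          push_cast
          rw [hδ]
          nlinarith

open Classical in
/-- The chain killed at the transitions in `bad`. -/
noncomputable def kill (K : St → Z → ℝ) (bad : St → Z → Prop) : St → Z → ℝ :=
  fun X z => if bad X z then 0 else K X z

lemma kill_nonneg {K : St → Z → ℝ} (bad : St → Z → Prop) (hK : ∀ X z, 0 ≤ K X z) (X : St) (z : Z) :
    0 ≤ kill K bad X z := by
  unfold kill; split_ifs
  · exact le_rfl
  · exact hK X z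

lemma kill_le {K : St → Z → ℝ} (bad : St → Z → Prop) (hK : ∀ X z, 0 ≤ K X z) (X : St) (z : Z) :
    kill K bad X z ≤ K X z := by
  unfold kill; split_ifs
  · exact hK X z
  · exact le_rfl

lemma kill_sum_le {K : St → Z → ℝ} (bad : St → Z → Prop) (hK : ∀ X z, 0 ≤ K X z)
    (hK1 : ∀ X, ∑ z, K X z = 1) (X : St) : ∑ z, kill K bad X z ≤ 1 :=
  (Finset.sum_le_sum fun z _ => kill_le bad hK X z).trans (hK1 X).le

/-- Regeneration bound: if after every `bad` transition the chain restarts in a state whose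
excursion has reward rate at most `ρ`, the total reward grows at rate at most `ρ`. -/
lemma V_regen (nx : St → Z → St) {K : St → Z → ℝ} {r : Z → ℝ} (bad : St → Z → Prop)
    (I : Set St) {ρ : ℝ} (hρ : 0 ≤ ρ) (H : ℕ)
    (hK : ∀ X z, 0 ≤ K X z) (hK1 : ∀ X, ∑ z, K X z = 1) (hr : ∀ z, 0 ≤ r z)
    (hbr : ∀ X z, bad X z → r z = 0)
    (hbI : ∀ X z, bad X z → K X z ≠ 0 → nx X z ∈ I)
    (hI : ∀ X ∈ I, V nx (kill K bad) r H X ≤ ρ * (1 + V nx (kill K bad) (fun _ => 1) H X))
    (t : ℕ) : ∀ (h : ℕ) (X : St), t ≤ h → h ≤ H →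
      V nx K r t X ≤ V nx (kill K bad) r h X
        + ρ * (t + H - V nx (kill K bad) (fun _ => 1) h X) := by
  have hk0 := kill_nonneg bad hK
  have hk1 := kill_sum_le bad hK hK1
  induction t with
  | zero =>
    intro h X _ hH
    have h1 := V_nonneg nx hk0 hr h X
    have h2 := V_le nx (r := fun _ => (1 : ℝ)) hk0 hk1 (fun _ => le_rfl) h X
    have h3 : (h : ℝ) ≤ H := by exact_mod_cast hH
    have h4 : 0 ≤ ρ * ((0 : ℕ) + H - V nx (kill K bad) (fun _ => 1) h X) :=
      mul_nonneg hρ (by push_cast; linarith)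
    rw [V_zero]; linarith
  | succ t ih =>
    intro h X hth hH
    obtain ⟨h, rfl⟩ : ∃ h', h = h' + 1 := ⟨h - 1, by omega⟩
    simp only [V_succ]
    have key : ∀ z, K X z * (r z + V nx K r t (nx X z)) ≤
        kill K bad X z * (r z + V nx (kill K bad) r h (nx X z))
        + ρ * (K X z * (t + 1 + H)
          - kill K bad X z * (1 + V nx (kill K bad) (fun _ => 1) h (nx X z))) := by
      intro z
      by_cases hb : bad X z
      · have e : kill K bad X z = 0 := by simp [kill, hb]
        rw [e, hbr X z hb]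
        by_cases hz : K X z = 0
        · simp [hz]
        · have h1 := ih H (nx X z) (by omega) le_rfl
          have h2 := hI _ (hbI X z hb hz)
          have h3 : V nx K r t (nx X z) ≤ ρ * (t + 1 + H) := by nlinarith
          have := mul_le_mul_of_nonneg_left h3 (hK X z)
          nlinarith
      · have e : kill K bad X z = K X z := by simp [kill, hb]
        rw [e]
        have h1 := ih h (nx X z) (by omega) (by omega)
        have := mul_le_mul_of_nonneg_left h1 (hK X z)
        nlinarith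
    refine (Finset.sum_le_sum fun z _ => key z).trans (le_of_eq ?_)
    rw [Finset.sum_add_distrib, ← Finset.mul_sum, Finset.sum_sub_distrib, ← Finset.sum_mul, hK1]
    push_cast
    ring

end Pool.Agent.Lib.MP_baa74b_lc
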