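import Mathlib

/-!
The `(μ+1)` memory-restricted black-box model.
-/

namespace Pool.Agent.Lib.MP_baa74b_lc

open scoped ENNReal

/-- A `(μ+1)` memory-restricted black-box algorithm on the search space `S`:
the law `start` of the `μ` initial queries, the law `query X` of the next query given the memory
`X` (a multiset of pairs point/value), and the law `drop Y` of the pair that is removed from the
multiset `Y` of `μ + 1` pairs (it has to be one of the pairs in `Y`). -/
structure Alg (S : Type) (μ : ℕ) where
  start : PMF (Fin μ → S)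
  query : Multiset (S × ℝ) → PMF S
  drop : Multiset (S × ℝ) → PMF (S × ℝ)
  drop_mem : ∀ Y : Multiset (S × ℝ), Y.card = μ + 1 → ∀ p ∈ (drop Y).support, p ∈ Y

variable {S : Type} {μ : ℕ}

open Classical in
/-- The law of the list of points queried in the next `t` rounds on `f`, from the memory `X`. -/
noncomputable def rounds (A : Alg S μ) (f : S → ℝ) : ℕ → Multiset (S × ℝ) → PMF (List S)
  | 0, _ => PMF.pure []
  | t + 1, X => (A.query X).bind fun y => (A.drop ((y, f y) ::ₘ X)).bind fun p =>
      (rounds A f t (((y, f y) ::ₘ X).erase p)).map fun q => y :: q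

/-- The law of the list of the first `μ + t` queries: `μ` initial ones, then `t` rounds. -/
noncomputable def queries (A : Alg S μ) (f : S → ℝ) (t : ℕ) : PMF (List S) :=
  A.start.bind fun x =>
    (rounds A f t (Finset.univ.val.map fun i => (x i, f (x i)))).map fun q => List.ofFn x ++ q

/-- `P(T(A,f) > t)`: the probability that none of the first `t` queries is a maximiser of `f`. -/
noncomputable def tail (A : Alg S μ) (f : S → ℝ) (t : ℕ) : ℝ≥0∞ :=
  (queries A f t).toOuterMeasure {q | ∀ y ∈ q.take t, ¬ ∀ z, f z ≤ f y}

/-- `E[T(A,f)] = ∑_{t ≥ 0} P(T(A,f) > t)`, in `[0,∞]`. -/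
noncomputable def expTime (A : Alg S μ) (f : S → ℝ) : ℝ≥0∞ := ∑' t, tail A f t

/-- `C_μ(F)`, the `(μ+1)` memory-restricted black-box complexity of the class `F`. -/
noncomputable def complexity (S : Type) (μ : ℕ) (F : Set (S → ℝ)) : ℝ≥0∞ :=
  ⨅ A : Alg S μ, ⨆ f ∈ F, expTime A f

end Pool.Agent.Lib.MP_baa74b_lc
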