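import Pool.Agent.Lib.MP_baa74b_lc.Defs
import Pool.Agent.Lib.MP_baa74b_lc.Chain

/-!
The run of an algorithm on a fixed function as a chain on multisets of `μ` points.
-/

namespace Pool.Agent.Lib.MP_baa74b_lc

open scoped ENNReal
open Finset

variable {S : Type} {μ : ℕ}

/-- The pair stored for the point `x`. -/
def gr (f : S → ℝ) (x : S) : S × ℝ := (x, f x)

lemma gr_injective (f : S → ℝ) : Function.Injective (gr f) := fun _ _ h => congrArg Prod.fst h

open Classical in
/-- Next set of stored points after querying `z.1` and removing `z.2`. -/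
noncomputable def nxt (X : Sym S μ) (z : S × S) : Sym S μ :=
  if hp : z.2 ∈ z.1 ::ₘ X.1 then
    ⟨(z.1 ::ₘ X.1).erase z.2, by rw [Multiset.card_erase_of_mem hp]; simp⟩
  else X

/-- Transition weights in `ℝ≥0∞`. -/
noncomputable def KE (A : Alg S μ) (f : S → ℝ) (X : Sym S μ) (z : S × S) : ℝ≥0∞ :=
  A.query (X.1.map (gr f)) z.1 * A.drop ((z.1 ::ₘ X.1).map (gr f)) (gr f z.2)

/-- Real transition weights. -/
noncomputable def KR (A : Alg S μ) (f : S → ℝ) (X : Sym S μ) (z : S × S) : ℝ :=
  (KE A f X z).toReal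

lemma KE_ne_top (A : Alg S μ) (f : S → ℝ) (X : Sym S μ) (z : S × S) : KE A f X z ≠ ⊤ :=
  ENNReal.mul_ne_top (PMF.apply_ne_top _ _) (PMF.apply_ne_top _ _)

lemma KR_nonneg (A : Alg S μ) (f : S → ℝ) (X : Sym S μ) (z : S × S) : 0 ≤ KR A f X z :=
  ENNReal.toReal_nonneg

lemma card_cons_map (f : S → ℝ) (X : Sym S μ) (y : S) :
    ((y ::ₘ X.1).map (gr f)).card = μ + 1 := by simp

lemma drop_support (A : Alg S μ) (f : S → ℝ) (X : Sym S μ) (y : S) :
    Function.support (A.drop ((y ::ₘ X.1).map (gr f))) ⊆ Set.range (gr f) := by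
  intro p hp
  have := A.drop_mem _ (card_cons_map f X y) p hp
  obtain ⟨x, _, rfl⟩ := Multiset.mem_map.1 this
  exact ⟨x, rfl⟩

lemma mem_of_drop_ne_zero (A : Alg S μ) (f : S → ℝ) (X : Sym S μ) (y p : S)
    (h : A.drop ((y ::ₘ X.1).map (gr f)) (gr f p) ≠ 0) : p ∈ y ::ₘ X.1 := by
  have := A.drop_mem _ (card_cons_map f X y) _ h
  obtain ⟨x, hx, e⟩ := Multiset.mem_map.1 this
  rwa [← gr_injective f e]

lemma mem_of_KR_ne_zero (A : Alg S μ) (f : S → ℝ) (X : Sym S μ) (z : S × S)
    (h : KR A f X z ≠ 0) : z.2 ∈ z.1 ::ₘ X.1 := by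
  apply mem_of_drop_ne_zero A f X z.1 z.2
  intro h0
  apply h
  simp only [KR, KE, h0, mul_zero, ENNReal.toReal_zero]

/-- The weights only depend on the values of `f` at the points present. -/
lemma KR_congr (A : Alg S μ) {f f' : S → ℝ} (X : Sym S μ) (z : S × S)
    (h : ∀ x ∈ z.1 ::ₘ X.1, f x = f' x) : KR A f X z = KR A f' X z := by
  have e1 : X.1.map (gr f) = X.1.map (gr f') :=
    Multiset.map_congr rfl fun x hx => by simp [gr, h x (Multiset.mem_cons_of_mem hx)]
  have e2 : (z.1 ::ₘ X.1).map (gr f) = (z.1 ::ₘ X.1).map (gr f') :=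
    Multiset.map_congr rfl fun x hx => by simp [gr, h x hx]
  by_cases hp : z.2 ∈ z.1 ::ₘ X.1
  · have e3 : gr f z.2 = gr f' z.2 := by simp [gr, h _ hp]
    simp only [KR, KE, e1, e2, e3]
  · have a : KR A f X z = 0 := by
      by_contra hh; exact hp (mem_of_KR_ne_zero A f X z hh)
    have b : KR A f' X z = 0 := by
      by_contra hh; exact hp (mem_of_KR_ne_zero A f' X z hh)
    rw [a, b]

variable [Fintype S]

lemma sum_drop (A : Alg S μ) (f : S → ℝ) (X : Sym S μ) (y : S) :
    ∑ p, A.drop ((y ::ₘ X.1).map (gr f)) (gr f p) = 1 := by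
  rw [← tsum_fintype (L := SummationFilter.unconditional S),
    (gr_injective f).tsum_eq (drop_support A f X y), PMF.tsum_coe]

lemma sum_KR_snd (A : Alg S μ) (f : S → ℝ) (X : Sym S μ) (y : S) :
    ∑ p, KR A f X (y, p) = (A.query (X.1.map (gr f)) y).toReal := by
  unfold KR
  rw [← ENNReal.toReal_sum fun p _ => KE_ne_top A f X (y, p)]
  simp only [KE]
  rw [← Finset.mul_sum, sum_drop, mul_one]

lemma sum_toReal_pmf {α : Type} [Fintype α] (p : PMF α) : ∑ a, (p a).toReal = 1 := by
  rw [← ENNReal.toReal_sum fun a _ => PMF.apply_ne_top p a,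
    ← tsum_fintype (L := SummationFilter.unconditional α), PMF.tsum_coe]
  simp

lemma sum_KR (A : Alg S μ) (f : S → ℝ) (X : Sym S μ) : ∑ z, KR A f X z = 1 := by
  rw [Fintype.sum_prod_type]
  simp only [sum_KR_snd]
  exact sum_toReal_pmf _

lemma KR_le_one (A : Alg S μ) (f : S → ℝ) (X : Sym S μ) (z : S × S) : KR A f X z ≤ 1 := by
  rw [← sum_KR A f X]
  exact Finset.single_le_sum (fun z _ => KR_nonneg A f X z) (Finset.mem_univ z)

/-- Probability that `s` is queried in the next `t` rounds. -/
noncomputable def hitE (A : Alg S μ) (f : S → ℝ) (s : S) (t : ℕ) (X : Sym S μ) : ℝ≥0∞ :=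
  (rounds A f t (X.1.map (gr f))).toOuterMeasure {q | s ∈ q}

lemma outer_le_one {α : Type} (p : PMF α) (E : Set α) : p.toOuterMeasure E ≤ 1 := by
  rw [← (p.toOuterMeasure_apply_eq_one_iff Set.univ).2 (Set.subset_univ _)]
  exact p.toOuterMeasure_mono (Set.subset_univ _)

omit [Fintype S] in
lemma hitE_le_one (A : Alg S μ) (f : S → ℝ) (s : S) (t : ℕ) (X : Sym S μ) :
    hitE A f s t X ≤ 1 := outer_le_one _ _

open Classical in
lemma hitE_succ (A : Alg S μ) (f : S → ℝ) (s : S) (t : ℕ) (X : Sym S μ) :
    hitE A f s (t + 1) X =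
      ∑ z : S × S, KE A f X z * (if z.1 = s then 1 else hitE A f s t (nxt X z)) := by
  unfold hitE
  rw [rounds, PMF.toOuterMeasure_bind_apply, tsum_fintype, Fintype.sum_prod_type]
  refine Finset.sum_congr rfl fun y _ => ?_
  rw [PMF.toOuterMeasure_bind_apply]
  have e : (y, f y) ::ₘ X.1.map (gr f) = (y ::ₘ X.1).map (gr f) := by simp [gr]
  rw [e, ← (gr_injective f).tsum_eq, tsum_fintype, Finset.mul_sum]
  · refine Finset.sum_congr rfl fun p _ => ?_
    simp only [KE]
    rw [mul_assoc]
    congr 1
    by_cases h0 : A.drop ((y ::ₘ X.1).map (gr f)) (gr f p) = 0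
    · simp only [h0, zero_mul]
    · congr 1
      have hp := mem_of_drop_ne_zero A f X y p h0
      rw [PMF.toOuterMeasure_map_apply]
      split_ifs with hy
      · have : (fun q : List S => y :: q) ⁻¹' {q | s ∈ q} = Set.univ := by
          ext q; simp [hy]
        rw [this]
        exact (PMF.toOuterMeasure_apply_eq_one_iff _ _).2 (Set.subset_univ _)
      · have : (fun q : List S => y :: q) ⁻¹' {q | s ∈ q} = {q | s ∈ q} := by
          ext q; simp [Ne.symm hy]
        rw [this]
        have e2 : (nxt X (y, p)).1 = (y ::ₘ X.1).erase p := by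
          simp only [nxt, hp, dif_pos]
        rw [e2, Multiset.map_erase _ (gr_injective f)]
  · intro p hp
    apply drop_support A f X y
    intro h0
    apply hp
    simp only [h0, zero_mul]

open Classical in
/-- Indicator reward of querying `s`. -/
noncomputable def rw1 (s : S) : S × S → ℝ := fun z => if z.1 = s then 1 else 0

omit [Fintype S] in
lemma rw1_nonneg (s : S) (z : S × S) : 0 ≤ rw1 s z := by
  unfold rw1; split_ifs <;> norm_num

omit [Fintype S] in
lemma rw1_le_one (s : S) (z : S × S) : rw1 s z ≤ 1 := by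
  unfold rw1; split_ifs <;> norm_num

/-- Until `s` is queried, the run on `f` is the run on any `f0` that agrees with `f` off `s`. -/
lemma hitE_le (A : Alg S μ) {f f0 : S → ℝ} {s : S} (hf : ∀ x, x ≠ s → f x = f0 x) (t : ℕ) :
    ∀ X : Sym S μ, s ∉ X.1 → (hitE A f s t X).toReal ≤ V nxt (KR A f0) (rw1 s) t X := by
  classical
  induction t with
  | zero =>
    intro X _
    have : hitE A f s 0 X = 0 := by
      simp [hitE, rounds, PMF.toOuterMeasure_pure_apply]
    simp [this, V_zero]
  | succ t ih =>
    intro X hX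
    rw [hitE_succ, V_succ, ENNReal.toReal_sum, Fintype.sum_prod_type, Fintype.sum_prod_type]
    · refine Finset.sum_le_sum fun y _ => ?_
      by_cases hy : y = s
      · subst hy
        simp only [if_true, mul_one]
        have e1 : X.1.map (gr f) = X.1.map (gr f0) :=
          Multiset.map_congr rfl fun x hx => by
            simp [gr, hf x (fun e => hX (e ▸ hx))]
        have h1 := sum_KR_snd A f X y
        have h2 := sum_KR_snd A f0 X y
        simp only [KR] at h1
        rw [h1, e1, ← h2]
        refine Finset.sum_le_sum fun p _ => ?_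
        have := V_nonneg nxt (KR_nonneg A f0) (rw1_nonneg y) t (nxt X (y, p))
        have h3 : rw1 y (y, p) = 1 := by simp [rw1]
        rw [h3]
        have := KR_nonneg A f0 X (y, p)
        nlinarith
      · refine Finset.sum_le_sum fun p _ => ?_
        simp only [hy, if_false, ENNReal.toReal_mul]
        have hs : s ∉ y ::ₘ X.1 := by
          simp only [Multiset.mem_cons, not_or]
          exact ⟨Ne.symm hy, hX⟩
        have e : KR A f X (y, p) = KR A f0 X (y, p) :=
          KR_congr A X (y, p) fun x hx => hf x fun e => hs (e ▸ hx)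
        have h3 : rw1 s (y, p) = 0 := by simp [rw1, hy]
        rw [h3, zero_add, ← e]
        refine mul_le_mul_of_nonneg_left (ih _ ?_) (KR_nonneg A f X (y, p))
        unfold nxt
        split_ifs with hp
        · exact fun h => hs (Multiset.mem_of_mem_erase h)
        · exact hX
    · intro z _
      refine ENNReal.mul_ne_top (KE_ne_top A f X z) ?_
      split_ifs
      · simp
      · exact ne_top_of_le_ne_top ENNReal.one_ne_top (hitE_le_one A f s t _)

/-- The stored points after the initialisation. -/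
def st0 (x : Fin μ → S) : Sym S μ := ⟨Finset.univ.val.map x, by simp⟩

open Classical in
/-- Bound for the probability that `s` is among the first `μ + t` queries. -/
lemma queries_hit_le (A : Alg S μ) {f f0 : S → ℝ} {s : S} (hf : ∀ x, x ≠ s → f x = f0 x) (t : ℕ) :
    ((queries A f t).toOuterMeasure {q | s ∈ q}).toReal ≤
      ∑ x, (A.start x).toReal *
        ((if s ∈ Set.range x then 1 else 0) + V nxt (KR A f0) (rw1 s) t (st0 x)) := by
  unfold queries
  rw [PMF.toOuterMeasure_bind_apply, tsum_fintype, ENNReal.toReal_sum]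
  · refine Finset.sum_le_sum fun x _ => ?_
    rw [ENNReal.toReal_mul]
    refine mul_le_mul_of_nonneg_left ?_ ENNReal.toReal_nonneg
    have hV := V_nonneg nxt (KR_nonneg A f0) (rw1_nonneg s) t (st0 x)
    split_ifs with hx
    · have := ENNReal.toReal_mono ENNReal.one_ne_top (outer_le_one
        ((rounds A f t (Finset.univ.val.map fun i => (x i, f (x i)))).map
          fun q => List.ofFn x ++ q) {q | s ∈ q})
      simp only [ENNReal.toReal_one] at this
      linarith
    · rw [PMF.toOuterMeasure_map_apply, zero_add]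
      have : (fun q : List S => List.ofFn x ++ q) ⁻¹' {q | s ∈ q} = {q | s ∈ q} := by
        ext q
        simp only [Set.mem_preimage, Set.mem_ofPred_eq, List.mem_append, List.mem_ofFn]
        constructor
        · rintro (⟨i, hi⟩ | h)
          · exact absurd ⟨i, hi⟩ hx
          · exact h
        · exact Or.inr
      rw [this]
      have e : (Finset.univ.val.map fun i => (x i, f (x i))) = (st0 x).1.map (gr f) := by
        show _ = (Finset.univ.val.map x).map (gr f)
        rw [Multiset.map_map]
        rfl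
      rw [e]
      refine hitE_le A hf t (st0 x) ?_
      intro h
      have h' : s ∈ Finset.univ.val.map x := h
      obtain ⟨i, _, hi⟩ := Multiset.mem_map.1 h'
      exact hx ⟨i, hi⟩
  · intro x _
    exact ENNReal.mul_ne_top (PMF.apply_ne_top _ _)
      (ne_top_of_le_ne_top ENNReal.one_ne_top (outer_le_one _ _))

omit [Fintype S] in
/-- If `s` is the only maximiser and is queried among the first `μ + t` points with probability at
most `1/2`, then `P(T > t) ≥ 1/2`. -/
lemma half_le_tail (A : Alg S μ) {f : S → ℝ} {s : S} (hs : ∀ y, (∀ z, f z ≤ f y) → y = s) (t : ℕ)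
    (h : ((queries A f t).toOuterMeasure {q | s ∈ q}).toReal ≤ 1 / 2) : 1 / 2 ≤ tail A f t := by
  have h1 : (queries A f t).toOuterMeasure {q | s ∈ q} ≤ 1 / 2 := by
    have hne := ne_top_of_le_ne_top ENNReal.one_ne_top
      (outer_le_one (queries A f t) {q | s ∈ q})
    rw [← ENNReal.ofReal_toReal hne]
    refine (ENNReal.ofReal_le_ofReal h).trans (le_of_eq ?_)
    rw [ENNReal.ofReal_div_of_pos (by norm_num)]
    simp
  have h2 : (1 : ℝ≥0∞) ≤ (queries A f t).toOuterMeasure {q | s ∈ q} + tail A f t := by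
    rw [← ((queries A f t).toOuterMeasure_apply_eq_one_iff Set.univ).2 (Set.subset_univ _)]
    refine le_trans ?_ (MeasureTheory.measure_union_le _ _)
    refine (queries A f t).toOuterMeasure_mono ?_
    rintro q -
    by_cases hq : s ∈ q
    · exact Or.inl hq
    · refine Or.inr fun y hy hmax => hq ?_
      rw [← hs y hmax]
      exact List.mem_of_mem_take hy
  have h3 : (1 / 2 : ℝ≥0∞) + 1 / 2 ≤ 1 / 2 + tail A f t := by
    rw [ENNReal.add_halves]
    exact h2.trans (add_le_add h1 le_rfl)
  exact (ENNReal.add_le_add_iff_left (by simp)).1 h3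

end Pool.Agent.Lib.MP_baa74b_lc
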