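import Pool.Agent.Lib.MP_baa74b_lc.Main

/-!
The lower bound for memory `μ`.
-/

namespace Pool.Agent.Lib.MP_baa74b_lc

open scoped ENNReal
open Finset

variable {S : Type} {μ : ℕ} [Fintype S]

/-- After the query, all the shares are in the memory. -/
def allSh (h : Fin (μ + 1) → S) (X : Sym S μ) (z : S × S) : Prop := ∀ i, h i ∈ z.1 ::ₘ X.1

open Classical in
/-- All the shares but the `i`-th. -/
noncomputable def stI (h : Fin (μ + 1) → S) (i : Fin (μ + 1)) : Sym S μ :=
  ⟨(Finset.univ.val.map h).erase (h i), by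
    rw [Multiset.card_erase_of_mem (Multiset.mem_map.2 ⟨i, Finset.mem_univ_val i, rfl⟩)]
    simp⟩

omit [Fintype S] in
lemma allSh_eq {h : Fin (μ + 1) → S} (hh : Function.Injective h) {X : Sym S μ} {z : S × S}
    (hb : allSh h X z) : z.1 ::ₘ X.1 = Finset.univ.val.map h := by
  symm
  apply Multiset.eq_of_le_of_card_le
  · rw [Multiset.le_iff_subset (Finset.univ.nodup.map hh)]
    intro x hx
    obtain ⟨i, _, rfl⟩ := Multiset.mem_map.1 hx
    exact hb i
  · simp

omit [Fintype S] in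
lemma allSh_nxt {h : Fin (μ + 1) → S} (hh : Function.Injective h) (A : Alg S μ) (f : S → ℝ)
    (X : Sym S μ) (z : S × S) (hb : allSh h X z) (hK : KR A f X z ≠ 0) :
    nxt X z ∈ Set.range (stI h) := by
  have hp := mem_of_KR_ne_zero A f X z hK
  have e := allSh_eq hh hb
  have hp' := hp
  rw [e] at hp'
  obtain ⟨i, _, hi⟩ := Multiset.mem_map.1 hp'
  refine ⟨i, Subtype.ext ?_⟩
  simp only [stI, nxt, hp, dif_pos]
  rw [e, hi]

omit [Fintype S] in
lemma allSh_rw {h : Fin (μ + 1) → S} (hh : Function.Injective h) (s : Tg h)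
    (X : Sym S μ) (z : S × S) (hb : allSh h X z) : rw1 s.1 z = 0 := by
  have e := allSh_eq hh hb
  have : z.1 ∈ Finset.univ.val.map h := e ▸ Multiset.mem_cons_self _ _
  obtain ⟨i, _, hi⟩ := Multiset.mem_map.1 this
  unfold rw1
  rw [if_neg]
  intro e'
  exact s.2 ⟨i, hi.trans e'⟩

open Classical in
/-- Fill the `j`-th coordinate with `0`. -/
noncomputable def fill {m : ℕ} (hm : 1 ≤ m) (j : Fin μ) (u : {i : Fin μ // i ≠ j} → Fin m) :
    Fin μ → Fin m := fun i => if hi : i = j then ⟨0, hm⟩ else u ⟨i, hi⟩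

/-- The discretised transition weights seen without one of the index shares. -/
noncomputable def sig (h : Fin (μ + 1) → S) (A : Alg S μ) (M : ℕ) {m : ℕ} (hm : 1 ≤ m)
    (g : Tab h m) (j : Fin μ) (u : {i : Fin μ // i ≠ j} → Fin m) (Xz : Sym S μ × (S × S)) :
    Fin (M + 1) :=
  ⟨⌊(M : ℝ) * KR A (f0 h m g (fill hm j u)) Xz.1 Xz.2⌋₊, by
    have h1 := KR_le_one A (f0 h m g (fill hm j u)) Xz.1 Xz.2
    have h2 : (M : ℝ) * KR A (f0 h m g (fill hm j u)) Xz.1 Xz.2 ≤ M :=
      mul_le_of_le_one_right (by positivity) h1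
    have := Nat.floor_le_floor h2
    rw [Nat.floor_natCast] at this
    omega⟩

lemma close_of_sig {h : Fin (μ + 1) → S} (hh : Function.Injective h) (A : Alg S μ) {M : ℕ}
    (hM : 1 ≤ M) {m : ℕ} (hm : 1 ≤ m) {g g' : Tab h m} (e : sig h A M hm g = sig h A M hm g')
    (w : Fin μ → Fin m) (X : Sym S μ) (z : S × S) :
    kill (KR A (f0 h m g w)) (allSh h) X z ≤ kill (KR A (f0 h m g' w)) (allSh h) X z + 1 / M := by
  have hM' : (0 : ℝ) < M := by exact_mod_cast hM
  have hε : (0 : ℝ) ≤ 1 / M := by positivity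
  unfold kill
  split_ifs with hb
  · simp
  · unfold allSh at hb
    push Not at hb
    obtain ⟨i, hi⟩ := hb
    revert hi
    refine Fin.cases ?_ (fun j => ?_) i
    · intro hi
      have : KR A (f0 h m g w) X z = KR A (f0 h m g' w) X z := by
        refine KR_congr A X z fun x hx => f0_congr m hh x ?_
        intro i' hi'
        revert hi'
        refine Fin.cases ?_ (fun j => ?_) i'
        · intro hi'; exact absurd (hi' ▸ hx) hi
        · intro _; simp [val]
      rw [this]; linarith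
    · intro hi
      have key : ∀ g : Tab h m, KR A (f0 h m g w) X z
          = KR A (f0 h m g (fill hm j fun i => w i.1)) X z := by
        intro g
        refine KR_congr A X z fun x hx => f0_congr m hh x ?_
        intro i' hi'
        revert hi'
        refine Fin.cases ?_ (fun j' => ?_) i'
        · intro _; simp [val]
        · intro hi'
          have hne : j' ≠ j := by
            rintro rfl
            exact hi (hi' ▸ hx)
          simp [val, fill, hne]
      rw [key g, key g']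
      have e1 := congrArg Fin.val (congrFun (congrFun (congrFun e j) fun i => w i.1) (X, z))
      simp only [sig] at e1
      set a := KR A (f0 h m g (fill hm j fun i => w i.1)) X z
      set b := KR A (f0 h m g' (fill hm j fun i => w i.1)) X z
      have hb0 : 0 ≤ b := KR_nonneg _ _ _ _
      have h1 : (M : ℝ) * a < ⌊(M : ℝ) * a⌋₊ + 1 := Nat.lt_floor_add_one _
      have h2 : (⌊(M : ℝ) * b⌋₊ : ℝ) ≤ M * b := Nat.floor_le (by positivity)
      rw [e1] at h1
      have h3 : (M : ℝ) * a ≤ M * (b + 1 / M) := by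
        rw [mul_add, mul_one_div_cancel hM'.ne']; linarith
      exact le_of_mul_le_mul_left h3 hM'

open Classical in
lemma card_Tg {h : Fin (μ + 1) → S} (hh : Function.Injective h) :
    Fintype.card (Tg h) = Fintype.card S - (μ + 1) := by
  rw [Fintype.card_subtype_compl, Set.card_range_of_injective hh, Fintype.card_fin]

open Classical in
/-- For every precision there is a table size such that every algorithm admits tables with
nearly equal weights and all possible optima. -/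
lemma exists_size {h : Fin (μ + 1) → S} (hh : Function.Injective h)
    (hN : μ + 2 ≤ Fintype.card S) {M : ℕ} (hM : 1 ≤ M) :
    ∃ m : ℕ, ∀ A : Alg S μ, ∃ (w : Fin μ → Fin m) (gs : Tg h → Tab h m),
      (∀ s, gs s w = s) ∧ ∀ s s' X z, kill (KR A (f0 h m (gs s) w)) (allSh h) X z
        ≤ kill (KR A (f0 h m (gs s') w)) (allSh h) X z + 1 / M := by
  set c : ℕ := (M + 1) ^ Fintype.card (Sym S μ × (S × S)) with hc
  have hT : 1 ≤ Fintype.card (Tg h) := by rw [card_Tg hh]; omega
  obtain ⟨m, hm, hlt⟩ := exists_pow_lt (c ^ μ) _ hT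
  refine ⟨m, fun A => ?_⟩
  obtain ⟨w, gs, h1, h2⟩ := exists_tables (sig h A M hm) (by
    have e1 : ∀ j : Fin μ, Fintype.card {i : Fin μ // i ≠ j} = μ - 1 := by
      intro j
      rw [Fintype.card_subtype_compl, Fintype.card_fin, Fintype.card_subtype_eq]
    rw [Fintype.card_pi]
    simp only [Fintype.card_fun, Fintype.card_fin, e1, Finset.prod_const, Finset.card_univ]
    rw [← hc]
    clear_value c
    rcases Nat.eq_zero_or_pos μ with h0 | h0
    · subst h0
      simp only [pow_zero, one_mul, pow_one]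
      omega
    · obtain ⟨ν, rfl⟩ : ∃ ν, μ = ν + 1 := ⟨μ - 1, by omega⟩
      simp only [Nat.add_sub_cancel]
      have hpos : m ^ ν ≠ 0 := by positivity
      have := Nat.pow_lt_pow_left hlt hpos
      rw [mul_pow, ← pow_mul, ← pow_mul, ← pow_mul] at this
      rw [← pow_mul, pow_succ' m ν, mul_comm (m ^ ν) (ν + 1)]
      exact this)
  exact ⟨w, gs, h1, fun s s' X z => close_of_sig hh A hM hm (h2 s s') w X z⟩

open Classical in
lemma sum_rw1_le (h : Fin (μ + 1) → S) (z : S × S) : ∑ s : Tg h, rw1 s.1 z ≤ 1 := by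
  unfold rw1
  rw [Finset.sum_boole]
  have : (Finset.univ.filter fun s : Tg h => z.1 = s.1).card ≤ 1 := by
    rw [Finset.card_le_one]
    intro a ha b hb
    simp only [Finset.mem_filter, Finset.mem_univ, true_and] at ha hb
    exact Subtype.ext (ha.symm.trans hb)
  exact_mod_cast this

open Classical in
lemma sum_range_le (h : Fin (μ + 1) → S) (x : Fin μ → S) :
    ∑ s : Tg h, (if s.1 ∈ Set.range x then (1 : ℝ) else 0) ≤ μ := by
  rw [Finset.sum_boole]
  have : (Finset.univ.filter fun s : Tg h => s.1 ∈ Set.range x).card ≤ μ := by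
    calc (Finset.univ.filter fun s : Tg h => s.1 ∈ Set.range x).card
        ≤ (Finset.univ.image x).card := by
          refine Finset.card_le_card_of_injOn (fun s => s.1) ?_ ?_
          · intro s hs
            simp only [Finset.coe_filter, Finset.mem_univ, true_and, Set.mem_ofPred_eq] at hs
            simpa using hs
          · intro a _ b _ e; exact Subtype.ext e
      _ ≤ μ := Finset.card_image_le.trans (by simp)
  exact_mod_cast this

open Classical in
/-- Averaging over the target. -/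
lemma exists_target {h : Fin (μ + 1) → S} [Nonempty (Tg h)] (A : Alg S μ)
    {L : Sym S μ → S × S → ℝ} (hL : ∀ X z, 0 ≤ L X z) (hL1 : ∀ X, ∑ z, L X z ≤ 1)
    (H : ℕ) (hH : 1 ≤ H) :
    ∃ s : Tg h,
      (∀ i, V nxt L (rw1 s.1) H (stI h i) ≤ ((μ + 2 : ℝ) / Fintype.card (Tg h))
        * (1 + V nxt L (fun _ => 1) H (stI h i))) ∧
      ∑ x, (A.start x).toReal * ((if s.1 ∈ Set.range x then 1 else 0)
        + V nxt L (rw1 s.1) H (st0 x)) ≤ ((μ + 2 : ℝ) / Fintype.card (Tg h)) * (μ + H) := by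
  set a : Fin (μ + 1) → Tg h → ℝ := fun i s =>
    V nxt L (rw1 s.1) H (stI h i) / (1 + V nxt L (fun _ => 1) H (stI h i)) with ha
  set b : Tg h → ℝ := fun s => (∑ x, (A.start x).toReal * ((if s.1 ∈ Set.range x then 1 else 0)
        + V nxt L (rw1 s.1) H (st0 x))) / (μ + H) with hb
  have hm0 : ∀ X, 0 ≤ V nxt L (fun _ => 1) H X := V_nonneg nxt hL (fun _ => zero_le_one) H
  have hn0 : ∀ (s : Tg h) X, 0 ≤ V nxt L (rw1 s.1) H X :=
    fun s => V_nonneg nxt hL (rw1_nonneg s.1) H
  have hsum : ∀ X, ∑ s : Tg h, V nxt L (rw1 s.1) H X ≤ V nxt L (fun _ => 1) H X :=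
    sum_V_le Finset.univ nxt hL (sum_rw1_le h) H
  have hμH : (0 : ℝ) < μ + H := by
    have : (1 : ℝ) ≤ H := by exact_mod_cast hH
    positivity
  have ha0 : ∀ i s, 0 ≤ a i s := fun i s => div_nonneg (hn0 _ _) (by linarith [hm0 (stI h i)])
  have hb0 : ∀ s, 0 ≤ b s := fun s => div_nonneg (Finset.sum_nonneg fun x _ =>
    mul_nonneg ENNReal.toReal_nonneg (add_nonneg (by split_ifs <;> norm_num) (hn0 _ _))) hμH.le
  have hsa : ∀ i, ∑ s, a i s ≤ 1 := by
    intro i
    simp only [ha]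
    rw [← Finset.sum_div, div_le_one (by linarith [hm0 (stI h i)])]
    linarith [hsum (stI h i)]
  have hsb : ∑ s, b s ≤ 1 := by
    simp only [hb]
    rw [← Finset.sum_div, div_le_one hμH, Finset.sum_comm]
    calc ∑ x, ∑ s : Tg h, (A.start x).toReal * ((if s.1 ∈ Set.range x then 1 else 0)
          + V nxt L (rw1 s.1) H (st0 x)) ≤ ∑ x, (A.start x).toReal * (μ + H) := by
          refine Finset.sum_le_sum fun x _ => ?_
          rw [← Finset.mul_sum, Finset.sum_add_distrib]
          refine mul_le_mul_of_nonneg_left (add_le_add (sum_range_le h x) ?_)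
            ENNReal.toReal_nonneg
          exact (hsum _).trans (V_le nxt hL hL1 (fun _ => le_rfl) H _)
      _ = μ + H := by rw [← Finset.sum_mul, sum_toReal_pmf, one_mul]
  have hT : (0 : ℝ) < Fintype.card (Tg h) := by exact_mod_cast Fintype.card_pos
  have htot : ∑ s, (∑ i, a i s + b s) ≤ ∑ _s : Tg h, (μ + 2 : ℝ) / Fintype.card (Tg h) := by
    rw [Finset.sum_add_distrib, Finset.sum_comm, Finset.sum_const, Finset.card_univ, nsmul_eq_mul,
      mul_div_cancel₀ _ hT.ne']
    have : ∑ i, ∑ s, a i s ≤ ∑ _i : Fin (μ + 1), (1 : ℝ) := Finset.sum_le_sum fun i _ => hsa i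
    simp only [Finset.sum_const, Finset.card_univ, Fintype.card_fin, nsmul_eq_mul, mul_one] at this
    push_cast at this
    linarith
  obtain ⟨s, _, hs⟩ := Finset.exists_le_of_sum_le Finset.univ_nonempty htot
  refine ⟨s, fun i => ?_, ?_⟩
  · have h1 : a i s ≤ ∑ i, a i s :=
      Finset.single_le_sum (f := fun i => a i s) (fun i _ => ha0 i s) (Finset.mem_univ i)
    have h2 : a i s ≤ (μ + 2 : ℝ) / Fintype.card (Tg h) := by linarith [hb0 s]
    simp only [ha] at h2
    rwa [div_le_iff₀ (by linarith [hm0 (stI h i)])] at h2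
  · have h1 : 0 ≤ ∑ i, a i s := Finset.sum_nonneg fun i _ => ha0 i s
    have h2 : b s ≤ (μ + 2 : ℝ) / Fintype.card (Tg h) := by linarith
    simp only [hb] at h2
    rwa [div_le_iff₀ hμH] at h2

open Classical in
/-- The probability of finding the optimum in `μ + t` queries, `t ≤ H`, is small. -/
lemma exists_hard {h : Fin (μ + 1) → S} (hh : Function.Injective h)
    (hN : μ + 2 ≤ Fintype.card S) (H : ℕ) (hH : 1 ≤ H) {η : ℝ} (hη : 0 < η) :
    ∃ m : ℕ, ∀ A : Alg S μ, ∃ (g : Tab h m) (w : Fin μ → Fin m), ∀ t ≤ H,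
      ((queries A (f1 h m g w) t).toOuterMeasure {q | (g w).1 ∈ q}).toReal ≤
        ((μ + 2 : ℝ) / Fintype.card (Tg h)) * (μ + 3 * H) + η := by
  have hT : 1 ≤ Fintype.card (Tg h) := by rw [card_Tg hh]; omega
  have : Nonempty (Tg h) := Fintype.card_pos_iff.1 hT
  set ρ0 : ℝ := (μ + 2 : ℝ) / Fintype.card (Tg h) with hρ0
  have hρ00 : 0 ≤ ρ0 := by positivity
  set B : ℝ := Fintype.card (S × S) * (H : ℝ) ^ 2 * (1 + 2 * H * (1 + ρ0)) with hB
  have hB0 : 0 ≤ B := by positivity
  obtain ⟨M, hM⟩ := exists_nat_gt (B / η)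
  have hM0 : (0 : ℝ) < M := lt_of_le_of_lt (by positivity) hM
  have hM1 : 1 ≤ M := by exact_mod_cast hM0
  obtain ⟨m, hm⟩ := exists_size hh hN hM1
  refine ⟨m, fun A => ?_⟩
  obtain ⟨w, gs, hgs, hcl⟩ := hm A
  obtain ⟨s0⟩ := (inferInstance : Nonempty (Tg h))
  have hk0 : ∀ s, ∀ X z, 0 ≤ kill (KR A (f0 h m (gs s) w)) (allSh h) X z :=
    fun s => kill_nonneg _ (KR_nonneg A _)
  have hk1 : ∀ s, ∀ X, ∑ z, kill (KR A (f0 h m (gs s) w)) (allSh h) X z ≤ 1 :=
    fun s => kill_sum_le _ (KR_nonneg A _) (sum_KR A _)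
  obtain ⟨s, hs1, hs2⟩ := exists_target (h := h) A (hk0 s0) (hk1 s0) H hH
  refine ⟨gs s, w, fun t ht => ?_⟩
  set δ : ℝ := 1 / M * Fintype.card (S × S) * (H : ℝ) ^ 2 with hδ
  have hδ0 : 0 ≤ δ := by positivity
  have hε : (0 : ℝ) ≤ 1 / M := by positivity
  have lip : ∀ (a b : Tg h) (r : S × S → ℝ), (∀ z, 0 ≤ r z) → (∀ z, r z ≤ 1) → ∀ X,
      V nxt (kill (KR A (f0 h m (gs a) w)) (allSh h)) r H X ≤
        V nxt (kill (KR A (f0 h m (gs b) w)) (allSh h)) r H X + δ :=
    fun a b r hr hr1 X => V_lipschitz nxt hε (hk0 a) (hk1 a) (hk0 b) (hk1 b) hr hr1 (hcl a b) H X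
  set ρ : ℝ := ρ0 + δ * (1 + ρ0) with hρ
  have hρn : 0 ≤ ρ := by positivity
  have reg := V_regen nxt (K := KR A (f0 h m (gs s) w)) (r := rw1 s.1) (allSh h)
    (Set.range (stI h)) hρn H (KR_nonneg A _) (sum_KR A _) (rw1_nonneg s.1)
    (allSh_rw hh s) (allSh_nxt hh A _) (by
      rintro X ⟨i, rfl⟩
      have h1 := lip s s0 (rw1 s.1) (rw1_nonneg _) (rw1_le_one _) (stI h i)
      have h2 := lip s0 s (fun _ => 1) (fun _ => zero_le_one) (fun _ => le_rfl) (stI h i)
      have h3 := hs1 i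
      have h4 := V_nonneg nxt (hk0 s) (r := fun _ => 1) (fun _ => zero_le_one) H (stI h i)
      have h5 := mul_le_mul_of_nonneg_left h2 hρ00
      have h6 : 0 ≤ δ * (1 + ρ0) *
        V nxt (kill (KR A (f0 h m (gs s) w)) (allSh h)) (fun _ => 1) H (stI h i) := by positivity
      rw [hρ]
      nlinarith) t H
  have hq := queries_hit_le A (f := f1 h m (gs s) w) (f0 := f0 h m (gs s) w) (s := s.1)
    (fun x hx => f1_ne h m _ w x (by rwa [hgs s])) t
  rw [hgs s]
  refine hq.trans ?_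
  have hX : ∀ X, V nxt (KR A (f0 h m (gs s) w)) (rw1 s.1) t X ≤
      V nxt (kill (KR A (f0 h m (gs s0) w)) (allSh h)) (rw1 s.1) H X + (δ + 2 * H * ρ) := by
    intro X
    have h1 := reg X ht le_rfl
    have h2 := lip s s0 (rw1 s.1) (rw1_nonneg _) (rw1_le_one _) X
    have h3 := V_nonneg nxt (hk0 s) (r := fun _ => 1) (fun _ => zero_le_one) H X
    have h4 : (t : ℝ) ≤ H := by exact_mod_cast ht
    have h5 : ρ * (t + H - V nxt (kill (KR A (f0 h m (gs s) w)) (allSh h)) (fun _ => 1) H X)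
        ≤ ρ * (2 * H) := mul_le_mul_of_nonneg_left (by linarith) hρn
    linarith
  calc ∑ x, (A.start x).toReal * ((if s.1 ∈ Set.range x then 1 else 0)
        + V nxt (KR A (f0 h m (gs s) w)) (rw1 s.1) t (st0 x))
      ≤ ∑ x, ((A.start x).toReal * ((if s.1 ∈ Set.range x then 1 else 0)
        + V nxt (kill (KR A (f0 h m (gs s0) w)) (allSh h)) (rw1 s.1) H (st0 x))
        + (A.start x).toReal * (δ + 2 * H * ρ)) := by
        refine Finset.sum_le_sum fun x _ => ?_
        rw [← mul_add]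
        exact mul_le_mul_of_nonneg_left (by linarith [hX (st0 x)]) ENNReal.toReal_nonneg
    _ ≤ ρ0 * (μ + H) + (δ + 2 * H * ρ) := by
        rw [Finset.sum_add_distrib, ← Finset.sum_mul, sum_toReal_pmf, one_mul]
        linarith
    _ ≤ ρ0 * (μ + 3 * H) + η := by
        have h1 : δ + 2 * H * (δ * (1 + ρ0)) = B / M := by
          rw [hδ, hB]; field_simp
        have h2 : B / M ≤ η := by
          rw [div_le_iff₀ hM0]
          rw [div_lt_iff₀ hη] at hM
          linarith
        rw [hρ]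
        nlinarith

theorem exists_lower {h : Fin (μ + 1) → S} (hh : Function.Injective h)
    (hN : 16 * (μ + 2) ^ 2 < Fintype.card S) :
    ∃ m : ℕ, (Fintype.card S : ℝ≥0∞) / (16 * (μ + 2)) ≤ complexity S μ (cls h m) := by
  classical
  set N := Fintype.card S with hNdef
  set H := N / (8 * (μ + 2)) with hHdef
  have h2 : μ + 2 ≤ N := by nlinarith
  have hH1 : 1 ≤ H := by
    rw [hHdef, Nat.le_div_iff_mul_le (by positivity)]; nlinarith
  have hHle : 8 * (μ + 2) * H ≤ N := Nat.mul_div_le N _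
  have hHlt : N < 8 * (μ + 2) * (H + 1) := Nat.lt_mul_div_succ N (by positivity)
  obtain ⟨m, hm⟩ := exists_hard hh h2 H hH1 (η := 1 / 25) (by norm_num)
  refine ⟨m, le_iInf fun A => ?_⟩
  obtain ⟨g, w, hgw⟩ := hm A
  refine le_trans ?_ (le_iSup₂ (f := fun f (_ : f ∈ cls h m) => expTime A f) (f1 h m g w)
    ⟨g, w, rfl⟩)
  have hbound : ((μ + 2 : ℝ) / Fintype.card (Tg h)) * (μ + 3 * H) + 1 / 25 ≤ 1 / 2 := by
    have e : (Fintype.card (Tg h) : ℝ) = N - (μ + 1) := by
      rw [card_Tg hh, Nat.cast_sub (by omega)]; push_cast; rfl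
    have hN' : (16 : ℝ) * (μ + 2) ^ 2 < N := by exact_mod_cast hN
    have hH' : (8 : ℝ) * (μ + 2) * H ≤ N := by exact_mod_cast hHle
    have hμ : (0 : ℝ) ≤ μ := by positivity
    have hpos : (0 : ℝ) < N - (μ + 1) := by nlinarith
    rw [e, div_mul_eq_mul_div, div_add' _ _ _ hpos.ne', div_le_iff₀ hpos]
    nlinarith
  have htail : ∀ t ∈ Finset.range (H + 1), (1 / 2 : ℝ≥0∞) ≤ tail A (f1 h m g w) t := by
    intro t ht
    refine half_le_tail A (f1_unique h m g w) t ((hgw t ?_).trans hbound)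
    simpa [Nat.lt_succ_iff] using ht
  calc (N : ℝ≥0∞) / (16 * (μ + 2)) ≤ ((H + 1 : ℕ) : ℝ≥0∞) * (1 / 2) := by
        rw [ENNReal.div_le_iff (by simp) (by finiteness)]
        have : (N : ℝ≥0∞) ≤ ((8 * (μ + 2) * (H + 1) : ℕ) : ℝ≥0∞) := by exact_mod_cast hHlt.le
        refine this.trans (le_of_eq ?_)
        have e : (16 : ℝ≥0∞) = 2 * 8 := by norm_num
        have e2 : (1 / 2 : ℝ≥0∞) * 2 = 1 := by
          rw [one_div, ENNReal.inv_mul_cancel (by simp) (by simp)]
        rw [e]
        push_cast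
        calc (8 : ℝ≥0∞) * (μ + 2) * (H + 1) = (H + 1) * (1 / 2 * 2) * (8 * (μ + 2)) := by
              rw [e2]; ring
          _ = _ := by ring
    _ = ∑ _t ∈ Finset.range (H + 1), (1 / 2 : ℝ≥0∞) := by simp
    _ ≤ ∑ t ∈ Finset.range (H + 1), tail A (f1 h m g w) t := Finset.sum_le_sum htail
    _ ≤ expTime A (f1 h m g w) := ENNReal.sum_le_tsum _

end Pool.Agent.Lib.MP_baa74b_lc
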