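import Pool.Agent.Lib.MP_baa74b_lc.Kernel

/-!
The hard class: `μ + 1` share points, the first carries a table `g`, the others carry the
coordinates of an index `w`, and the optimum is at `g w`.
-/

namespace Pool.Agent.Lib.MP_baa74b_lc

open scoped ENNReal
open Finset

/-- Pigeonhole: tables with one signature that take every value at one index. -/
lemma exists_tables {W T Sg : Type} [Fintype W] [Fintype T] [Fintype Sg] [DecidableEq W]
    (σ : (W → T) → Sg)
    (h : Fintype.card Sg * (Fintype.card T - 1) ^ Fintype.card W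
      < Fintype.card T ^ Fintype.card W) :
    ∃ (w : W) (gs : T → W → T), (∀ s, gs s w = s) ∧ ∀ s s', σ (gs s) = σ (gs s') := by
  classical
  have h' : Fintype.card Sg * (Fintype.card T - 1) ^ Fintype.card W < Fintype.card (W → T) := by
    rwa [Fintype.card_fun]
  obtain ⟨c, hc⟩ := Fintype.exists_lt_card_fiber_of_mul_lt_card σ h'
  by_contra hcon
  have hw : ∀ w : W, ∃ s : T, ∀ g : W → T, σ g = c → g w ≠ s := by
    intro w
    by_contra hh
    push Not at hh
    choose gs hgs using hh
    exact hcon ⟨w, gs, fun s => (hgs s).2, fun s s' => by rw [(hgs s).1, (hgs s').1]⟩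
  choose sw hsw using hw
  have hsub : (Finset.univ.filter fun g => σ g = c) ⊆
      Fintype.piFinset fun w => Finset.univ.erase (sw w) := by
    intro g hg
    rw [Fintype.mem_piFinset]
    intro w
    simp only [Finset.mem_filter, Finset.mem_univ, true_and] at hg
    simp [hsw w g hg]
  have := Finset.card_le_card hsub
  rw [Fintype.card_piFinset] at this
  simp only [Finset.card_erase_of_mem (Finset.mem_univ _), Finset.card_univ, Finset.prod_const]
    at this
  omega

lemma exists_pow_lt (c N : ℕ) (hN : 1 ≤ N) : ∃ m, 1 ≤ m ∧ c * (N - 1) ^ m < N ^ m := by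
  obtain ⟨n, rfl⟩ : ∃ n, N = n + 1 := ⟨N - 1, by omega⟩
  simp only [Nat.add_sub_cancel]
  have hr : (n : ℝ) / (n + 1) < 1 := by
    rw [div_lt_one (by positivity)]; linarith
  have hr0 : (0 : ℝ) ≤ (n : ℝ) / (n + 1) := by positivity
  have ht := (tendsto_pow_atTop_nhds_zero_of_lt_one hr0 hr).const_mul (c : ℝ)
  rw [mul_zero] at ht
  obtain ⟨m, hm1, hm⟩ := ((Filter.eventually_ge_atTop 1).and
    (ht.eventually (gt_mem_nhds (zero_lt_one' ℝ)))).exists
  refine ⟨m, hm1, ?_⟩
  rw [div_pow, ← mul_div_assoc, div_lt_one (by positivity)] at hm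
  exact_mod_cast hm

variable {S : Type} {μ : ℕ}

/-- Points that are not shares. -/
abbrev Tg (h : Fin (μ + 1) → S) : Type := {s : S // s ∉ Set.range h}

/-- Tables. -/
abbrev Tab (h : Fin (μ + 1) → S) (m : ℕ) : Type := (Fin μ → Fin m) → Tg h

section
variable [Fintype S] (h : Fin (μ + 1) → S) (m : ℕ)

open Classical in
/-- A number that encodes the table. -/
noncomputable def enc (g : Tab h m) : ℕ := (Fintype.equivFin (Tab h m) g : ℕ)

lemma enc_injective : Function.Injective (enc h m) := by
  classical
  intro g g' e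
  exact (Fintype.equivFin (Tab h m)).injective (Fin.ext e)

/-- Values at the share points. -/
noncomputable def val (g : Tab h m) (w : Fin μ → Fin m) : Fin (μ + 1) → ℝ :=
  Fin.cases (-(enc h m g : ℝ)) fun j => -((w j : ℕ) : ℝ)

/-- The function without its optimum. -/
noncomputable def f0 (g : Tab h m) (w : Fin μ → Fin m) : S → ℝ :=
  Function.extend h (val h m g w) 0

open Classical in
/-- The function with optimum at `g w`. -/
noncomputable def f1 (g : Tab h m) (w : Fin μ → Fin m) : S → ℝ :=
  Function.update (f0 h m g w) (g w).1 1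

lemma val_nonpos (g : Tab h m) (w : Fin μ → Fin m) (i : Fin (μ + 1)) : val h m g w i ≤ 0 := by
  refine Fin.cases ?_ (fun j => ?_) i
  · simp [val]
  · simp [val]

lemma f0_nonpos (g : Tab h m) (w : Fin μ → Fin m) (x : S) : f0 h m g w x ≤ 0 := by
  classical
  unfold f0
  rw [Function.extend_def]
  split_ifs
  · exact val_nonpos h m g w _
  · simp

lemma f1_ne (g : Tab h m) (w : Fin μ → Fin m) (x : S) (hx : x ≠ (g w).1) :
    f1 h m g w x = f0 h m g w x := by
  classical
  unfold f1; simp [Function.update_of_ne hx]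

lemma f1_opt (g : Tab h m) (w : Fin μ → Fin m) : f1 h m g w (g w).1 = 1 := by
  classical
  unfold f1; simp

lemma f1_max (g : Tab h m) (w : Fin μ → Fin m) (z : S) : f1 h m g w z ≤ f1 h m g w (g w).1 := by
  rw [f1_opt]
  by_cases hz : z = (g w).1
  · rw [hz, f1_opt]
  · rw [f1_ne h m g w z hz]; linarith [f0_nonpos h m g w z]

lemma f1_unique (g : Tab h m) (w : Fin μ → Fin m) (y : S)
    (hy : ∀ z, f1 h m g w z ≤ f1 h m g w y) : y = (g w).1 := by
  by_contra hne
  have := hy (g w).1
  rw [f1_opt, f1_ne h m g w y hne] at this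
  linarith [f0_nonpos h m g w y]

variable {h}

lemma f0_share (hh : Function.Injective h) (g : Tab h m) (w : Fin μ → Fin m) (i : Fin (μ + 1)) :
    f0 h m g w (h i) = val h m g w i := hh.extend_apply _ _ i

lemma f1_share (hh : Function.Injective h) (g : Tab h m) (w : Fin μ → Fin m) (i : Fin (μ + 1)) :
    f1 h m g w (h i) = val h m g w i := by
  rw [f1_ne h m g w (h i) (fun e => (g w).2 ⟨i, e⟩), f0_share m hh]

lemma f0_congr (hh : Function.Injective h) {g g' : Tab h m} {w w' : Fin μ → Fin m} (x : S)
    (hx : ∀ i, h i = x → val h m g w i = val h m g' w' i) : f0 h m g w x = f0 h m g' w' x := by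
  by_cases hr : ∃ i, h i = x
  · obtain ⟨i, rfl⟩ := hr
    rw [f0_share m hh, f0_share m hh, hx i rfl]
  · unfold f0
    rw [Function.extend_apply' _ _ _ hr, Function.extend_apply' _ _ _ hr]

lemma val_inj {g g' : Tab h m} {w w' : Fin μ → Fin m} (e : val h m g w = val h m g' w') :
    g = g' ∧ w = w' := by
  constructor
  · have := congrFun e 0
    simp only [val, Fin.cases_zero, neg_inj, Nat.cast_inj] at this
    exact enc_injective h m this
  · funext j
    have := congrFun e j.succ
    simp only [val, Fin.cases_succ, neg_inj, Nat.cast_inj] at this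
    exact Fin.ext this

variable (h)

/-- The class of functions. -/
def cls : Set (S → ℝ) := {f | ∃ g w, f = f1 h m g w}

/-- The memory that holds all shares. -/
noncomputable def mem (g : Tab h m) (w : Fin μ → Fin m) : Multiset (S × ℝ) :=
  Finset.univ.val.map fun i => (h i, val h m g w i)

open Classical in
/-- The algorithm with memory `μ + 1`: read all the shares, then query the optimum. -/
noncomputable def good : Alg S (μ + 1) where
  start := PMF.pure h
  query X := if hX : ∃ gw : Tab h m × (Fin μ → Fin m), X = mem h m gw.1 gw.2 then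
      PMF.pure (hX.choose.1 hX.choose.2).1 else PMF.pure (h 0)
  drop Y := if hY : ∃ p, p ∈ Y then PMF.pure hY.choose else PMF.pure (h 0, 0)
  drop_mem Y hY p hp := by
    have hne : ∃ p, p ∈ Y := Multiset.card_pos_iff_exists_mem.1 (by omega)
    rw [dif_pos hne] at hp
    simp only [PMF.support_pure, Set.mem_singleton_iff] at hp
    rw [hp]
    exact hne.choose_spec

variable {h}

lemma good_query (hh : Function.Injective h) (g : Tab h m) (w : Fin μ → Fin m) :
    (good h m).query (mem h m g w) = PMF.pure (g w).1 := by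
  have hX : ∃ gw : Tab h m × (Fin μ → Fin m), mem h m g w = mem h m gw.1 gw.2 := ⟨(g, w), rfl⟩
  have e : val h m g w = val h m hX.choose.1 hX.choose.2 := by
    funext i
    have h1 : (h i, val h m g w i) ∈ mem h m g w :=
      Multiset.mem_map.2 ⟨i, Finset.mem_univ_val i, rfl⟩
    rw [hX.choose_spec] at h1
    obtain ⟨i', _, e'⟩ := Multiset.mem_map.1 h1
    simp only [Prod.mk.injEq] at e'
    have := hh e'.1
    subst this
    exact e'.2.symm
  obtain ⟨e1, e2⟩ := val_inj m e
  simp only [good]
  rw [dif_pos hX, ← e1, ← e2]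

lemma good_tail (hh : Function.Injective h) (g : Tab h m) (w : Fin μ → Fin m) (t : ℕ)
    (ht : μ + 2 ≤ t) : tail (good h m) (f1 h m g w) t = 0 := by
  unfold tail
  rw [PMF.toOuterMeasure_apply_eq_zero_iff, Set.disjoint_left]
  intro q hq hE
  obtain ⟨t, rfl⟩ : ∃ t', t = t' + 1 := ⟨t - 1, by omega⟩
  unfold queries at hq
  rw [PMF.mem_support_bind_iff] at hq
  obtain ⟨x, hx, hq⟩ := hq
  have hx' : x = h := by simpa [good] using hx
  subst hx'
  rw [PMF.mem_support_map_iff] at hq
  obtain ⟨q', hq', rfl⟩ := hq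
  have e : (Finset.univ.val.map fun i => (x i, f1 x m g w (x i))) = mem x m g w := by
    unfold mem
    exact Multiset.map_congr rfl fun i _ => by rw [f1_share m hh]
  rw [e, rounds, good_query m hh, PMF.pure_bind, PMF.mem_support_bind_iff] at hq'
  obtain ⟨p, _, hq'⟩ := hq'
  rw [PMF.mem_support_map_iff] at hq'
  obtain ⟨q'', _, rfl⟩ := hq'
  refine hE (g w).1 ?_ (f1_max x m g w)
  rw [List.take_append]
  refine List.mem_append_right _ ?_
  obtain ⟨u, hu⟩ : ∃ u, t + 1 - (List.ofFn x).length = u + 1 :=
    ⟨t - (μ + 1), by simp only [List.length_ofFn]; omega⟩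
  rw [hu, List.take_succ_cons]
  exact List.mem_cons_self

lemma good_expTime (hh : Function.Injective h) (g : Tab h m) (w : Fin μ → Fin m) :
    expTime (good h m) (f1 h m g w) ≤ μ + 2 := by
  unfold expTime
  rw [tsum_eq_sum (s := Finset.range (μ + 2))]
  · calc ∑ t ∈ Finset.range (μ + 2), tail (good h m) (f1 h m g w) t
        ≤ ∑ _t ∈ Finset.range (μ + 2), (1 : ℝ≥0∞) :=
          Finset.sum_le_sum fun t _ => outer_le_one _ _
      _ = μ + 2 := by simp
  · intro t ht
    exact good_tail m hh g w t (by simpa using ht)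

theorem upper (hh : Function.Injective h) : complexity S (μ + 1) (cls h m) ≤ μ + 2 := by
  refine (iInf_le _ (good h m)).trans (iSup₂_le ?_)
  rintro f ⟨g, w, rfl⟩
  exact good_expTime m hh g w

end

end Pool.Agent.Lib.MP_baa74b_lc
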